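import Pool.Agent.Q189.IB.Stm5
import Pool.Agent.Q246.NR.Len

/-! Project IB (helper189), job NRM: the norm of an integral polynomial with respect to roots of the variables. -/

set_option autoImplicit false
set_option linter.unusedSectionVars false

namespace Pool.Agent.Q190.IB

open MvPolynomial Finset
open Pool.Agent.Q246.NR Pool.Agent.Q189.IB

/-! ### the matrix of characters -/

section

theorem char_sum {D : ℕ} {ω s : ℂ} (hω : IsPrimitiveRoot ω D) (hs : s ≠ 0) (hD : 0 < D) (a b : Fin D) :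
    ∑ x : Fin D, ((ω ^ (x : ℕ) * s)⁻¹) ^ (a : ℕ) * (ω ^ (x : ℕ) * s) ^ (b : ℕ) = if a = b then (D : ℂ) else 0 := by
  have hω0 : ω ≠ 0 := hω.ne_zero hD.ne'
  have h1 : ∀ x : ℕ, ((ω ^ x * s)⁻¹) ^ (a : ℕ) * (ω ^ x * s) ^ (b : ℕ) =
      (s ^ (b : ℕ) / s ^ (a : ℕ)) * (ω ^ (b : ℕ) / ω ^ (a : ℕ)) ^ x := by
    intro x
    have e1 : (ω ^ (b : ℕ)) ^ x = (ω ^ x) ^ (b : ℕ) := by rw [← pow_mul, ← pow_mul, mul_comm]
    have e2 : (ω ^ (a : ℕ)) ^ x = (ω ^ x) ^ (a : ℕ) := by rw [← pow_mul, ← pow_mul, mul_comm]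
    rw [div_pow, e1, e2, inv_pow, mul_pow, mul_pow]
    have h3 : (ω ^ x) ^ (a : ℕ) ≠ 0 := pow_ne_zero _ (pow_ne_zero _ hω0)
    have h4 : s ^ (a : ℕ) ≠ 0 := pow_ne_zero _ hs
    field_simp
  split_ifs with hab
  · subst hab
    have h2 : ∀ x : Fin D, ((ω ^ (x : ℕ) * s)⁻¹) ^ (a : ℕ) * (ω ^ (x : ℕ) * s) ^ (a : ℕ) = 1 := by
      intro x
      rw [h1, div_self (pow_ne_zero _ hs), div_self (pow_ne_zero _ hω0), one_pow, mul_one]
    rw [sum_congr rfl fun x _ => h2 x, sum_const, card_univ, Fintype.card_fin, nsmul_eq_mul, mul_one]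
  · rw [sum_congr rfl fun (x : Fin D) _ => h1 (x : ℕ), ← mul_sum]
    have hy : ω ^ (b : ℕ) / ω ^ (a : ℕ) ≠ 1 := by
      intro h
      rw [div_eq_one_iff_eq (pow_ne_zero _ hω0)] at h
      exact hab (Fin.ext (hω.pow_inj a.2 b.2 h.symm))
    have hyD : (ω ^ (b : ℕ) / ω ^ (a : ℕ)) ^ D = 1 := by
      rw [div_pow, ← pow_mul, ← pow_mul, mul_comm (b : ℕ), mul_comm (a : ℕ), pow_mul, pow_mul, hω.pow_eq_one,
        one_pow, one_pow, div_one]
    rw [Fin.sum_univ_eq_sum_range (fun x => (ω ^ (b : ℕ) / ω ^ (a : ℕ)) ^ x) D, geom_sum_eq hy, hyD, sub_self,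
      zero_div, mul_zero]

variable {K : Type} [Fintype K] [DecidableEq K]

/-- the matrix of characters -/
noncomputable def EE (D : ℕ) (ω : ℂ) (s : K → ℂ) : Matrix (K → Fin D) (K → Fin D) ℂ :=
  fun l a => ∏ j, (ω ^ (l j : ℕ) * s j) ^ (a j : ℕ)

theorem EE_det {D : ℕ} {ω : ℂ} {s : K → ℂ} (hω : IsPrimitiveRoot ω D) (hs : ∀ j, s j ≠ 0) (hD : 0 < D) :
    (EE D ω s).det ≠ 0 := by
  let E' : Matrix (K → Fin D) (K → Fin D) ℂ := fun a l => ∏ j, ((ω ^ (l j : ℕ) * s j)⁻¹) ^ (a j : ℕ)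
  have h1 : E' * EE D ω s = ((D : ℂ) ^ Fintype.card K) • (1 : Matrix (K → Fin D) (K → Fin D) ℂ) := by
    ext a b
    rw [Matrix.mul_apply, Matrix.smul_apply, Matrix.one_apply, smul_eq_mul]
    have h2 : ∀ l : K → Fin D, E' a l * EE D ω s l b =
        ∏ j, (((ω ^ (l j : ℕ) * s j)⁻¹) ^ (a j : ℕ) * (ω ^ (l j : ℕ) * s j) ^ (b j : ℕ)) := fun l =>
      (prod_mul_distrib).symm
    rw [sum_congr rfl fun l _ => h2 l]
    have h3 := Finset.prod_univ_sum (fun _ : K => (univ : Finset (Fin D)))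
      (fun j x => ((ω ^ (x : ℕ) * s j)⁻¹) ^ (a j : ℕ) * (ω ^ (x : ℕ) * s j) ^ (b j : ℕ))
    rw [Fintype.piFinset_univ] at h3
    rw [← h3, prod_congr rfl fun j _ => char_sum hω (hs j) hD (a j) (b j)]
    split_ifs with hab
    · subst hab
      simp
    · obtain ⟨j, hj⟩ := Function.ne_iff.1 hab
      rw [mul_zero]
      exact prod_eq_zero (mem_univ j) (if_neg hj)
  intro h0
  have h2 := congrArg Matrix.det h1
  rw [Matrix.det_mul, h0, mul_zero, Matrix.det_smul, Matrix.det_one, mul_one] at h2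
  have hDC : (D : ℂ) ≠ 0 := Nat.cast_ne_zero.2 hD.ne'
  exact pow_ne_zero _ (pow_ne_zero _ hDC) h2.symm

end

/-! ### the matrix of the multiplication -/

section

variable {K V : Type} [Fintype K] [DecidableEq K] [Fintype V] {D : ℕ}

/-- the quotients of the exponents -/
noncomputable def nx (m : K ⊕ V →₀ ℕ) (b : K → Fin D) : K ⊕ V →₀ ℕ :=
  Finsupp.equivFunOnFinite.symm (Sum.elim (fun j => (m (Sum.inl j) + (b j : ℕ)) / D) (fun i => m (Sum.inr i)))

/-- the remainders of the exponents -/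
def rx (hD : 0 < D) (m : K ⊕ V →₀ ℕ) (b : K → Fin D) : K → Fin D :=
  fun j => ⟨(m (Sum.inl j) + (b j : ℕ)) % D, Nat.mod_lt _ hD⟩

open Classical in
/-- the matrix of the multiplication -/
noncomputable def MM (hD : 0 < D) (G : MvPolynomial (K ⊕ V) ℤ) :
    Matrix (K → Fin D) (K → Fin D) (MvPolynomial (K ⊕ V) ℤ) :=
  fun a b => ∑ m ∈ G.support, if rx hD m b = a then monomial (nx m b) (G.coeff m) else 0

theorem aeval_mon (z : K ⊕ V → ℂ) (m : K ⊕ V →₀ ℕ) (c : ℤ) :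
    aeval z (monomial m c) = (c : ℂ) * ((∏ j, z (Sum.inl j) ^ m (Sum.inl j)) * ∏ i, z (Sum.inr i) ^ m (Sum.inr i)) := by
  rw [aeval_monomial, Finsupp.prod_fintype _ _ (fun i => pow_zero _), Fintype.prod_sum_type]
  rfl

theorem pow_split {ω s : ℂ} (hω : ω ^ D = 1) (l n : ℕ) :
    (ω ^ l * s) ^ (n % D) * (s ^ D) ^ (n / D) = (ω ^ l * s) ^ n := by
  have h1 : s ^ D = (ω ^ l * s) ^ D := by
    rw [mul_pow, ← pow_mul, mul_comm l D, pow_mul, hω, one_pow, one_mul]
  rw [h1, ← pow_mul, ← pow_add, Nat.mod_add_div]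

theorem one_mon {ω : ℂ} (hω : ω ^ D = 1) (hD : 0 < D) (s : K → ℂ) (v : V → ℂ) (m : K ⊕ V →₀ ℕ) (c : ℤ)
    (l b : K → Fin D) :
    EE D ω s l (rx hD m b) * aeval (Sum.elim (fun j => s j ^ D) v) (monomial (nx m b) c) =
      EE D ω s l b * aeval (Sum.elim (fun j => ω ^ (l j : ℕ) * s j) v) (monomial m c) := by
  rw [aeval_mon, aeval_mon]
  simp only [Sum.elim_inl, Sum.elim_inr]
  have e1 : ∀ j, (nx m b) (Sum.inl j) = (m (Sum.inl j) + (b j : ℕ)) / D := fun j => rfl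
  have e2 : ∀ i, (nx m b) (Sum.inr i) = m (Sum.inr i) := fun i => rfl
  simp only [e1, e2]
  have e3 : EE D ω s l (rx hD m b) * ∏ j, (s j ^ D) ^ ((m (Sum.inl j) + (b j : ℕ)) / D) =
      EE D ω s l b * ∏ j, (ω ^ (l j : ℕ) * s j) ^ m (Sum.inl j) := by
    unfold EE
    rw [← prod_mul_distrib, ← prod_mul_distrib]
    refine prod_congr rfl fun j _ => ?_
    have h1 := pow_split (s := s j) hω (l j : ℕ) (m (Sum.inl j) + (b j : ℕ))
    rw [show ((rx hD m b j : Fin D) : ℕ) = (m (Sum.inl j) + (b j : ℕ)) % D from rfl, h1, pow_add, mul_comm]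
  linear_combination ((c : ℂ) * ∏ i, v i ^ m (Sum.inr i)) * e3

theorem MM_eval {ω : ℂ} (hω : ω ^ D = 1) (hD : 0 < D) (s : K → ℂ) (v : V → ℂ) (G : MvPolynomial (K ⊕ V) ℤ) :
    EE D ω s * (MM hD G).map (aeval (Sum.elim (fun j => s j ^ D) v)) =
      Matrix.diagonal (fun l : K → Fin D => aeval (Sum.elim (fun j => ω ^ (l j : ℕ) * s j) v) G) * EE D ω s := by
  classical
  ext l b
  rw [Matrix.mul_apply, Matrix.diagonal_mul]
  have h1 : ∀ a, EE D ω s l a * (MM hD G).map (aeval (Sum.elim (fun j => s j ^ D) v)) a b =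
      ∑ m ∈ G.support, if rx hD m b = a then
        EE D ω s l (rx hD m b) * aeval (Sum.elim (fun j => s j ^ D) v) (monomial (nx m b) (G.coeff m)) else 0 := by
    intro a
    rw [Matrix.map_apply]
    unfold MM
    rw [map_sum, mul_sum]
    refine sum_congr rfl fun m _ => ?_
    split_ifs with h
    · rw [h]
    · rw [map_zero, mul_zero]
  rw [sum_congr rfl fun a _ => h1 a, sum_comm]
  have h2 : ∀ m ∈ G.support, (∑ a : K → Fin D, if rx hD m b = a then
        EE D ω s l (rx hD m b) * aeval (Sum.elim (fun j => s j ^ D) v) (monomial (nx m b) (G.coeff m)) else 0) =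
      EE D ω s l b * aeval (Sum.elim (fun j => ω ^ (l j : ℕ) * s j) v) (monomial m (G.coeff m)) := by
    intro m _
    rw [sum_ite_eq, if_pos (mem_univ _)]
    exact one_mon hω hD s v m _ l b
  rw [sum_congr rfl h2, ← mul_sum, ← map_sum, mul_comm]
  congr 2
  exact (MvPolynomial.as_sum G).symm

theorem MM_det {ω : ℂ} (hω : IsPrimitiveRoot ω D) (hD : 0 < D) (s : K → ℂ) (v : V → ℂ) (hs : ∀ j, s j ≠ 0)
    (G : MvPolynomial (K ⊕ V) ℤ) : aeval (Sum.elim (fun j => s j ^ D) v) (MM hD G).det =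
      ∏ l : K → Fin D, aeval (Sum.elim (fun j => ω ^ (l j : ℕ) * s j) v) G := by
  have h1 := congrArg Matrix.det (MM_eval hω.pow_eq_one hD s v G)
  rw [Matrix.det_mul, Matrix.det_mul, Matrix.det_diagonal, mul_comm] at h1
  have h2 := mul_right_cancel₀ (EE_det hω hs hD) h1
  rw [← h2]
  exact AlgHom.map_det _ _

/-! ### bounds -/

theorem nx_deg {d : ℕ} (m : K ⊕ V →₀ ℕ) (b : K → Fin D) (hD : 0 < D) (hm : (m.sum fun _ e => e) ≤ d) :
    ((nx m b).sum fun _ => id) ≤ d + Fintype.card K := by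
  rw [Finsupp.sum_fintype _ _ (fun _ => rfl)] at hm ⊢
  rw [Fintype.sum_sum_type] at hm ⊢
  have h1 : ∑ j : K, id ((nx m b) (Sum.inl j)) ≤ ∑ j : K, (m (Sum.inl j) + 1) := by
    refine sum_le_sum fun j _ => ?_
    show (m (Sum.inl j) + (b j : ℕ)) / D ≤ m (Sum.inl j) + 1
    have h2 : (m (Sum.inl j) + (b j : ℕ)) / D ≤ (m (Sum.inl j) + D) / D :=
      Nat.div_le_div_right (Nat.add_le_add_left (b j).2.le _)
    rw [Nat.add_div_right _ hD] at h2
    have h3 : m (Sum.inl j) / D ≤ m (Sum.inl j) := Nat.div_le_self _ _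
    omega
  have h2 : ∑ i : V, id ((nx m b) (Sum.inr i)) = ∑ i : V, m (Sum.inr i) := rfl
  rw [sum_add_distrib, sum_const, card_univ, smul_eq_mul, mul_one] at h1
  omega

theorem MM_deg {d : ℕ} (hD : 0 < D) (G : MvPolynomial (K ⊕ V) ℤ) (hG : G.totalDegree ≤ d) (a b : K → Fin D) :
    (MM hD G a b).totalDegree ≤ d + Fintype.card K := by
  classical
  unfold MM
  refine totalDegree_finsetSum_le fun m hm => ?_
  split_ifs
  · exact (totalDegree_monomial_le _ _).trans (nx_deg m b hD ((le_totalDegree hm).trans hG))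
  · rw [totalDegree_zero]
    exact Nat.zero_le _

theorem MM_len (hD : 0 < D) (G : MvPolynomial (K ⊕ V) ℤ) (a b : K → Fin D) : len (MM hD G a b) ≤ len G := by
  classical
  unfold MM
  refine (len_sum _ _).trans ?_
  rw [len]
  refine sum_le_sum fun m _ => ?_
  split_ifs
  · rw [len_monomial]
  · rw [len_zero]
    exact norm_nonneg _

theorem sign_len {n : Type} [Fintype n] [DecidableEq n] {σ : Type} (τ : Equiv.Perm n) :
    len (((Equiv.Perm.sign τ : ℤˣ) : ℤ) : MvPolynomial σ ℤ) = 1 := by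
  rcases Int.units_eq_one_or (Equiv.Perm.sign τ) with h | h
  · rw [h]
    simp only [Units.val_one, Int.cast_one]
    exact len_one
  · rw [h]
    simp only [Units.val_neg, Units.val_one, Int.cast_neg, Int.cast_one]
    rw [len_neg]
    exact len_one

theorem sign_deg {n : Type} [Fintype n] [DecidableEq n] {σ : Type} (τ : Equiv.Perm n) :
    (((Equiv.Perm.sign τ : ℤˣ) : ℤ) : MvPolynomial σ ℤ).totalDegree = 0 := by
  rcases Int.units_eq_one_or (Equiv.Perm.sign τ) with h | h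
  · rw [h]
    simp
  · rw [h]
    simp

end

/-- JOB NRM -/
theorem nrm : S_NRM := by
  classical
  intro K V _ _ _ D d hD
  let c : K ⊕ V →₀ ℕ := Finsupp.equivFunOnFinite.symm fun _ => d
  let C : ℝ := ((Finset.Icc 0 c).card : ℝ)
  let n : ℕ := Fintype.card (K → Fin D)
  refine ⟨n * (d + Fintype.card K), n, (Fintype.card (Equiv.Perm (K → Fin D)) : ℝ) * C ^ n, ?_⟩
  intro ω hω G H hH hG hc
  have hlen : len G ≤ C * H := by
    have hsub : G.support ⊆ Finset.Icc 0 c := by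
      intro m hm
      rw [Finset.mem_Icc]
      refine ⟨zero_le, fun i => ?_⟩
      have h1 := (le_totalDegree hm).trans hG
      rw [Finsupp.sum_fintype _ _ (fun _ => rfl)] at h1
      exact (Finset.single_le_sum (fun _ _ => Nat.zero_le _) (mem_univ i)).trans h1
    rw [len_eq G hsub]
    calc ∑ m ∈ Finset.Icc 0 c, ‖G.coeff m‖ ≤ ∑ m ∈ Finset.Icc 0 c, H := sum_le_sum fun m _ => hc m
      _ = C * H := by rw [sum_const, nsmul_eq_mul]
  refine ⟨(MM hD G).det, ?_, ?_, ?_⟩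
  · rw [Matrix.det_apply']
    refine totalDegree_finsetSum_le fun τ _ => ?_
    refine (totalDegree_mul _ _).trans ?_
    rw [sign_deg, zero_add]
    refine (totalDegree_finsetProd _ _).trans ?_
    refine (sum_le_sum fun i _ => MM_deg hD G hG _ _).trans ?_
    rw [sum_const, card_univ, smul_eq_mul]
  · intro m
    refine (abs_coeff_le_len _ m).trans ?_
    rw [Matrix.det_apply']
    refine (len_sum _ _).trans ?_
    have h1 : ∀ τ ∈ (univ : Finset (Equiv.Perm (K → Fin D))),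
        len ((((Equiv.Perm.sign τ : ℤˣ) : ℤ) : MvPolynomial (K ⊕ V) ℤ) * ∏ i, MM hD G (τ i) i) ≤ (C * H) ^ n := by
      intro τ _
      refine (len_mul _ _).trans ?_
      rw [sign_len, one_mul]
      refine (len_prod _ _).trans ?_
      calc ∏ i, len (MM hD G (τ i) i) ≤ ∏ _i : K → Fin D, (C * H) :=
            prod_le_prod (fun _ _ => len_nonneg _) fun i _ => (MM_len hD G _ _).trans hlen
        _ = (C * H) ^ n := by rw [prod_const, card_univ]
    refine (sum_le_sum h1).trans ?_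
    rw [sum_const, card_univ, nsmul_eq_mul, mul_pow]
    exact le_of_eq (by ring)
  · intro s v hs
    exact MM_det hω hD s v hs G

end Pool.Agent.Q190.IB
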